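import Pool.Agent.KDT.StmtsJ

set_option autoImplicit false

/-!
# Squad KDT, block Z, row FUN (helper18): functoriality of the class group
-/

namespace Pool.Agent.KDT.H18

open Polynomial H58Q Pool.Agent.SZT Pool.Agent.KDT.Z

section gen

variable {R S : Type} [CommRing R] [IsDedekindDomain R] [CommRing S] [IsDedekindDomain S]
  (ψ : R →+* S)

omit [IsDedekindDomain R] [IsDedekindDomain S] in
theorem map_ne_bot (hψ : Function.Injective ψ) {I : Ideal R} (hI : I ≠ ⊥) : I.map ψ ≠ ⊥ := by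
  intro h
  apply hI
  rw [eq_bot_iff]
  intro x hx
  have h1 : ψ x ∈ I.map ψ := Ideal.mem_map_of_mem ψ hx
  rw [h, Ideal.mem_bot] at h1
  rw [Ideal.mem_bot]
  exact hψ (by rw [h1, map_zero])

theorem map_nzd (hψ : Function.Injective ψ) {I : Ideal R} (hI : I ∈ nonZeroDivisors (Ideal R)) :
    I.map ψ ∈ nonZeroDivisors (Ideal S) := by
  rw [mem_nonZeroDivisors_iff_ne_zero] at hI ⊢
  exact map_ne_bot ψ hψ hI

theorem mk0_map_eq (hψ : Function.Injective ψ) (I J : nonZeroDivisors (Ideal R))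
    (h : ClassGroup.mk0 I = ClassGroup.mk0 J) :
    ClassGroup.mk0 ⟨I.1.map ψ, map_nzd ψ hψ I.2⟩ = ClassGroup.mk0 ⟨J.1.map ψ, map_nzd ψ hψ J.2⟩ := by
  rw [ClassGroup.mk0_eq_mk0_iff] at h ⊢
  obtain ⟨x, y, hx, hy, hxy⟩ := h
  refine ⟨ψ x, ψ y, ?_, ?_, ?_⟩
  · intro h0
    exact hx (hψ (by rw [h0, map_zero]))
  · intro h0
    exact hy (hψ (by rw [h0, map_zero]))
  · have h1 := congrArg (Ideal.map ψ) hxy
    rw [Ideal.map_mul, Ideal.map_mul, Ideal.map_span, Ideal.map_span, Set.image_singleton,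
      Set.image_singleton] at h1
    exact h1

/-- the map on class groups -/
noncomputable def cgm (hψ : Function.Injective ψ) : ClassGroup R →* ClassGroup S where
  toFun c := ClassGroup.mk0 ⟨(Classical.choose (ClassGroup.mk0_surjective c)).1.map ψ,
    map_nzd ψ hψ (Classical.choose (ClassGroup.mk0_surjective c)).2⟩
  map_one' := by
    have h1 := mk0_map_eq ψ hψ (Classical.choose (ClassGroup.mk0_surjective (1 : ClassGroup R))) 1
      (by rw [Classical.choose_spec (ClassGroup.mk0_surjective (1 : ClassGroup R)), map_one])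
    rw [h1, ClassGroup.mk0_eq_one_iff]
    change (Ideal.map ψ (1 : Ideal R)).IsPrincipal
    rw [Ideal.one_eq_top, Ideal.map_top]
    exact ⟨⟨1, by rw [Ideal.submodule_span_eq, Ideal.span_singleton_one]⟩⟩
  map_mul' c d := by
    set I := Classical.choose (ClassGroup.mk0_surjective c) with hI
    set J := Classical.choose (ClassGroup.mk0_surjective d) with hJ
    have hIc : ClassGroup.mk0 I = c := Classical.choose_spec (ClassGroup.mk0_surjective c)
    have hJd : ClassGroup.mk0 J = d := Classical.choose_spec (ClassGroup.mk0_surjective d)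
    have h1 := mk0_map_eq ψ hψ (Classical.choose (ClassGroup.mk0_surjective (c * d))) (I * J)
      (by rw [Classical.choose_spec (ClassGroup.mk0_surjective (c * d)), map_mul, hIc, hJd])
    rw [h1, ← map_mul]
    congr 1
    apply Subtype.ext
    change Ideal.map ψ (I.1 * J.1) = Ideal.map ψ I.1 * Ideal.map ψ J.1
    rw [Ideal.map_mul]

theorem cgm_mk0 (hψ : Function.Injective ψ) (I : nonZeroDivisors (Ideal R)) :
    cgm ψ hψ (ClassGroup.mk0 I) = ClassGroup.mk0 ⟨I.1.map ψ, map_nzd ψ hψ I.2⟩ := by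
  change ClassGroup.mk0 ⟨(Classical.choose (ClassGroup.mk0_surjective (ClassGroup.mk0 I))).1.map ψ,
    map_nzd ψ hψ (Classical.choose (ClassGroup.mk0_surjective (ClassGroup.mk0 I))).2⟩ = _
  exact mk0_map_eq ψ hψ _ _ (Classical.choose_spec (ClassGroup.mk0_surjective (ClassGroup.mk0 I)))

theorem cgm_inj (hψ : Function.Injective ψ)
    (hpr : ∀ I : Ideal R, I ≠ ⊥ → (I.map ψ).IsPrincipal → I.IsPrincipal) :
    Function.Injective (cgm ψ hψ) := by
  rw [injective_iff_map_eq_one]
  intro c hc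
  obtain ⟨I, rfl⟩ := ClassGroup.mk0_surjective c
  rw [cgm_mk0, ClassGroup.mk0_eq_one_iff] at hc
  rw [ClassGroup.mk0_eq_one_iff]
  exact hpr I.1 (mem_nonZeroDivisors_iff_ne_zero.1 I.2) hc

end gen

theorem MI_ne_bot {F : Type} [Field F] (f A B : F[X]) : MI f A B ≠ ⊥ := by
  intro h
  have h1 : (⟨-B, 1⟩ : Q F f) ∈ MI f A B := Ideal.subset_span (by simp)
  rw [h, Ideal.mem_bot] at h1
  have h2 := congrArg QuadraticAlgebra.im h1
  exact one_ne_zero h2

theorem MI_nzd {F : Type} [Field F] (f A B : F[X]) [Fact (Odd f.natDegree)]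
    [IsDedekindDomain (Q F f)] : MI f A B ∈ nonZeroDivisors (Ideal (Q F f)) := by
  rw [mem_nonZeroDivisors_iff_ne_zero]
  exact MI_ne_bot f A B

theorem map_MI {F E : Type} [Field F] [Field E] (φ : F →+* E) (f A B : F[X]) :
    (MI f A B).map (Q.map φ f) = MI (f.map φ) (A.map φ) (B.map φ) := by
  unfold MI
  rw [Ideal.map_span, Set.image_pair]
  have h1 : Q.map φ f ⟨A, 0⟩ = ⟨A.map φ, 0⟩ := by
    apply QuadraticAlgebra.ext
    · rw [Q.map_re]
    · rw [Q.map_im]
      simp
  have h2 : Q.map φ f ⟨-B, 1⟩ = ⟨-B.map φ, 1⟩ := by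
    apply QuadraticAlgebra.ext
    · rw [Q.map_re]
      simp
    · rw [Q.map_im]
      simp
  rw [h1, h2]

/-- **Row FUN.** -/
theorem fun_ (bc1 : UBT.BC1Stmt) : FunStatement := by
  intro F E _ _ _ _ φ f g hg hmon hdeg hsq i1 i2 i3 i4
  subst hg
  have hinj : Function.Injective (Q.map φ f) := Q.map_injective φ f φ.injective
  refine ⟨(cgm (Q.map φ f) hinj).toAdditive, ?_, ?_⟩
  · exact cgm_inj (Q.map φ f) hinj (fun I hI h => bc1 F E φ f i1.out I hI h)
  · intro A B
    unfold clI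
    rw [dif_pos (MI_nzd f A B), dif_pos (MI_nzd (f.map φ) (A.map φ) (B.map φ))]
    change Additive.ofMul (cgm (Q.map φ f) hinj (ClassGroup.mk0 ⟨MI f A B, MI_nzd f A B⟩)) = _
    rw [cgm_mk0]
    congr 2
    apply Subtype.ext
    exact map_MI φ f A B

end Pool.Agent.KDT.H18
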