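import Pool.Agent.Helper89_SZT.Final
import Pool.Agent.Helper76_UBT.BC1
import Pool.Agent.Helper58_UB.Loc
import Pool.Agent.Helper24_KDT.AVO
import Pool.Agent.Helper28_KDT.ZBEZ
import Pool.Agent.Helper10_KDT.CMA
import Pool.Agent.Helper80_KDT.CNB
import Pool.Agent.Helper66_KDT.ZCPP
import Pool.Agent.Helper90_KDT.CTS
import Pool.Agent.Helper89_KDT.DTB
import Pool.Agent.Helper21_KDT.ZELI
import Pool.Agent.Helper5_KDT.EMB
import Pool.Agent.Helper8_KDT.EOM
import Pool.Agent.Helper92_KDT.EXT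
import Pool.Agent.Helper18_KDT.FUN
import Pool.Agent.Helper85_KDT.GDD
import Pool.Agent.Helper49_KDT.GLB
import Pool.Agent.Helper65_KDT.GMP
import Pool.Agent.Helper80_KDT.GNZ
import Pool.Agent.Helper41_KDT.GUP
import Pool.Agent.Helper35_KDT.HSP
import Pool.Agent.Helper37_KDT.ZIML
import Pool.Agent.Helper38_KDT.INA
import Pool.Agent.Helper50_KDT.INB
import Pool.Agent.Helper27_KDT.INP
import Pool.Agent.Helper95_KDT.IRD
import Pool.Agent.Helper37_KDT.ZJGA
import Pool.Agent.Helper21_KDT.ZJGB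
import Pool.Agent.Helper5_KDT.JGC
import Pool.Agent.Helper35_KDT.JKE
import Pool.Agent.Helper94_KDT.ZKBS
import Pool.Agent.Helper27_KDT.KQU
import Pool.Agent.Helper9_KDT.LDT
import Pool.Agent.Helper81_KDT.LFA
import Pool.Agent.Helper5_KDT.LFB
import Pool.Agent.Helper49_KDT.LFF
import Pool.Agent.Helper33_KDT.LMN
import Pool.Agent.Helper28_KDT.LVA
import Pool.Agent.Helper24_KDT.LVB
import Pool.Agent.Helper78_KDT.LVD
import Pool.Agent.Helper3_KDT.MBN
import Pool.Agent.Helper19_KDT.NRM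
import Pool.Agent.Helper67_KDT.PIG
import Pool.Agent.Helper25_KDT.PLF
import Pool.Agent.Helper51_KDT.PLI
import Pool.Agent.Helper7_KDT.PLN
import Pool.Agent.Helper59_KDT.RTL
import Pool.Agent.Helper16_KDT.ZSBG
import Pool.Agent.Helper49_KDT.SDN
import Pool.Agent.Helper64_KDT.SHF
import Pool.Agent.Helper11_KDT.ZSPL
import Pool.Agent.Helper16_KDT.ZSPO
import Pool.Agent.Helper88_KDT.ZSTB
import Pool.Agent.Helper98_KDT.ZSTC
import Pool.Agent.Helper76_KDT.STD
import Pool.Agent.Helper39_KDT.ZSTF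
import Pool.Agent.Helper54_KDT.ZSTG
import Pool.Agent.Helper76_KDT.SUB
import Pool.Agent.Helper34_KDT.TDO
import Pool.Agent.Helper36_KDT.ZTRD
import Pool.Agent.Helper48_KDT.TRL
import Pool.Agent.Helper10_KDT.TRO
import Pool.Agent.Helper60_KDT.ZTRS
import Pool.Agent.Helper11_KDT.ZTWO
import Pool.Agent.Helper7_KDT.UNV
import Pool.Agent.Helper16_KDT.VGC
import Pool.Agent.Helper45_KDT.VGT
import Pool.Agent.Helper89_KDT.ZZFI

set_option autoImplicit false

/-!
# Squads KDT and KDS (MP_160b6c_nt): base assembly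

Every row of the squads SZT and KDT which does not depend on the last step is put together here.
-/

namespace Pool.Agent.KDT.H18

open Pool.Agent.SZT

theorem a_aout : AOutStatement := SZT.H89.aout SZT.H64.sms
theorem a_mii : MiiStatement := SZT.H21.mii
theorem a_mik : MikStatement := SZT.H77.mik
theorem a_nrp : NrpStatement := SZT.H26.nrp a_mii
theorem a_unq : UnqStatement := SZT.H95.unq a_mii a_mik a_nrp
theorem a_pro : ProStatement := Pool.Agent.Helper92_SZT.pro a_mik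
theorem a_pai : PaiStatement := SZT.H10.pai a_unq a_pro a_mii
theorem a_sid : SidStatement := SZT.H27.sid
theorem a_bdk : BdkStatement := SZT.H25.bdk a_mik
theorem a_cnt : CntStatement := SZT.H98.cnt a_mii a_pai a_sid a_bdk
theorem a_pel : PelStatement := SZT.H88.pel a_mii a_mik
theorem a_pfs : PfsStatement := SZT.H86.pfs
theorem a_dsr : DsrStatement := SZT.H38.dsr
theorem a_dsh : DshStatement := SZT.H69.dsh a_dsr
theorem a_qvn : QvnStatement := SZT.H86.qvn
theorem a_rex : RexStatement := SZT.H76.rex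
theorem a_ded : UBT.DedStmt := H58Q.ded
theorem a_gpr : GprStatement := SZT.H62.gpr H58Q.loc H58Q.ded
theorem a_bc1 : UBT.BC1Stmt := H76UBT.bc1

theorem b_nod : B.NodStmt := SZT.H81.nod
theorem b_cht : B.ChtStmt := SZT.H18.cht b_nod
theorem b_gau : B.GauStmt := SZT.H9.gau
theorem b_sch : B.SchStmt := SZT.H41.sch
theorem b_sum : B.SumStmt := SZT.H34.sum
theorem b_lip : B.LipStmt := SZT.H47.lip b_sum
theorem b_fac : B.FacStmt := SZT.H23.fac b_sum b_lip (SZT.H23.div b_sum)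
theorem b_slo : B.SloStmt := SZT.H74.slo b_sum (SZT.H80.str b_sum) b_fac
theorem b_pmu : B.PmuStmt := SZT.H82.pmu
theorem b_exl : B.ExlStmt := SZT.H26.exl b_pmu
theorem b_nin : B.NinStmt := SZT.H24.nin b_sum b_lip b_fac b_pmu b_exl b_nod b_cht
theorem b_ein : B.EinStmt := SZT.H70.ein b_nod b_cht b_gau (SZT.H16.ord b_nod b_sch)
  (SZT.H16.inf b_nod b_sch) b_nin SZT.H18.eia
theorem b_inv : B.InvStmt := SZT.H32.inv
theorem b_imu : B.ImuStmt := SZT.H31.imu b_nod b_cht
theorem b_imi : B.ImiStmt := SZT.H18.imi b_pmu b_lip b_exl b_nod b_cht b_imu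
theorem b_add : B.AddStmt := SZT.H47.add b_slo b_pmu b_exl b_nod b_cht b_gau b_imu b_imi
theorem b_nrm : B.NrmStmt := SZT.H7.nrm b_inv
theorem b_kap : B.KapStmt := SZT.H32.kap b_cht b_inv b_nrm (SZT.H82.rep SZT.H76.rex) b_add
theorem b_cpl : B.CplStmt := SZT.H74.cpl
theorem b_roo : B.RooStmt := SZT.H38.roo
theorem b_sqr : B.SqrStmt := SZT.H94.sqr b_pmu
theorem b_rat : B.RatStmt := SZT.H60.rat b_nod
theorem b_nsz : B.NszStmt := SZT.H39.nsz b_nod b_cht SZT.H6.lim
theorem b_rvl : B.RvlStmt := SZT.H89.rvl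

theorem k_kqu : KquStatement := KDT.H27.kqu
theorem k_tro : TroStatement := KDT.H10.tro
theorem k_trl : TrlStatement := KDT.H48.trl k_tro
theorem k_gdd : GddStatement := KDT.H85.gdd k_trl a_unq a_mii a_bdk
theorem k_lva : LvaStatement := KDT.H28.lva
theorem k_lvb : LvbStatement := KDT.H24.lvb a_mik
theorem k_lvd : LvdStatement := KDT.H78.lvd k_gdd k_lva k_lvb
theorem k_gmp : GmpStatement := KDT.H65.gmp k_kqu
theorem k_lfa : LfaStatement := KDT.H81.lfa k_lvd k_tro
theorem k_plf : PlfStatement := KDT.H25.plf k_lfa k_gmp a_aout a_dsr b_cpl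
theorem k_pli : PliStatement := KDT.H51.pli k_lfa k_gmp a_aout a_dsr
theorem k_eom : EomStatement := KDT.H8.eom b_ein b_rvl a_mik
theorem k_shf : ShfStatement := KDT.H64.shf b_add b_nrm b_cht b_nod
theorem k_lfb : LfbStatement := KDT.H5.lfb k_lvd k_eom k_shf b_nod k_tro
theorem k_mbn : MbnStatement := KDT.H3.mbn
theorem k_pln : PlnStatement := KDT.H7.pln k_lfb k_mbn k_gmp b_nod b_cpl b_roo b_sqr b_kap b_rat
  b_nsz
theorem k_unv : UnvStatement := KDT.H7.unv
theorem k_dtb : DtbStatement := KDT.H89.dtb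
theorem k_cts : CtsStatement := KDT.H90.cts
theorem k_ldt : LdtStatement := KDT.H9.ldt k_plf k_pli k_pln k_unv k_dtb k_cts k_kqu
theorem k_glb : GlbStatement := KDT.H49.glb k_ldt a_pfs a_qvn a_dsh
theorem k_ina : InaStatement := KDT.H38.ina
theorem k_inb : InbStatement := KDT.H50.inb k_ina k_kqu
theorem k_lmn : LmnStatement := KDT.H33.lmn
theorem k_vgt : VgtStatement := KDT.H45.vgt
theorem k_vgc : VgcStatement := KDT.H16.vgc a_cnt a_pai a_sid a_mii a_bdk k_trl k_gmp k_vgt a_bc1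

theorem z_nrm : Z.NrmStatement := KDT.H19.nrm
theorem z_tdo : Z.TdoStatement := KDT.H34.tdo
theorem z_emb : Z.EmbStatement := KDT.H5.emb_row
theorem z_fun : Z.FunStatement := KDT.H18.fun_ a_bc1
theorem z_cma : Z.CmaStatement := KDT.H10.cma
theorem z_jga : Z.JgaStatement := KDT.H37.zjga a_mii a_unq a_pai
theorem z_jgb : Z.JgbStatement := KDT.H21.zjgb a_mii a_unq a_rex
theorem z_jgc : Z.JgcStatement := KDT.H5.jgc KDT.H37.ziml z_cma a_pro
theorem z_jke : Z.JkeStatement := KDT.Z.H35.jke z_jga z_jgb z_jgc z_fun z_emb a_ded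
theorem z_two : Z.TwoStatement := KDT.H11.ztwo
theorem z_avo : Z.AvoStatement := KDT.Z.H24.avo z_two
theorem z_cpp : Z.CppStatement := KDT.H66.zcpp
theorem z_sub : Z.SubStatement := KDT.H76.sub
theorem z_eli : Z.EliStatement := KDT.H21.zeli
theorem z_ird : Z.IrdStatement := KDT.Z.H95.ird z_eli
theorem z_rtl : Z.RtlStatement := KDT.H59.rtl z_emb
theorem z_trd : Z.TrdStatement := KDT.H36.ztrd z_nrm z_avo z_cpp z_sub z_ird z_rtl z_emb z_cma
theorem z_trs : Z.TrsStatement := KDT.H60.ztrs z_cpp z_sub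
theorem z_hsp : Z.HspStatement := KDT.Z.H35.hsp z_trs z_emb
theorem z_cnb : Z.CnbStatement := KDT.H80.cnb KDT.Z.H49.sdn
theorem z_lff : Z.LffStatement := KDT.Z.H49.lff
theorem z_bez : Z.BezStatement := KDT.H28.zbez z_eli
theorem z_ext : Z.ExtStatement := KDT.Z.H92.ext z_ird
theorem z_sbg : Z.SbgStatement := KDT.H16.zsbg
theorem z_gup : Z.GupStatement := KDT.Z.H41.gup KDT.H11.zspl z_ird KDT.H16.zspo
theorem z_inp : Z.InpStatement := KDT.Z.H27.inp z_eli
theorem z_stb : Z.StbStatement := KDT.H88.zstb z_two KDT.H80.gnz z_gup z_ird z_lff z_emb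
theorem z_stc : Z.StcStatement := KDT.H98.zstc z_trd z_trs z_cnb z_lff z_bez KDT.H67.pig z_emb
  z_cma
theorem z_std : Z.StdStatement := KDT.H76.std z_ext z_lff z_sbg
theorem z_stf : Z.StfStatement := KDT.H39.zstf z_gup z_inp z_trd z_trs z_hsp z_cnb z_lff z_bez
  z_ext z_emb z_cma z_sbg
theorem z_stg : Z.StgStatement := KDT.H54.stg z_cpp z_sub z_nrm z_avo KDT.H94.zkbs z_cma
theorem zero : ZeroStatement := KDT.H89.zzfi z_nrm z_tdo z_jke z_fun z_stb z_stc z_std z_sbg
  z_stf z_stg a_ded z_emb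

end Pool.Agent.KDT.H18
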