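import Pool.Agent.Helper18_KDT.Base
import Pool.Agent.Helper11_KDT.KFN

set_option autoImplicit false

/-!
# Squad KDT (MP_160b6c_nt): the theorem
-/

namespace Pool.Agent.KDT.H18

theorem final : KdtStatement :=
  KDT.H11.kfn k_glb k_lmn k_inb k_vgc zero a_pel a_rex a_dsh a_qvn a_gpr a_ded

end Pool.Agent.KDT.H18
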